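import Pool.Agent.W809.DN.Stms

/-!
# Entropies
-/

set_option autoImplicit false
set_option linter.all false

open Finset Filter Topology Pool.Agent.W809.DN

namespace Pool.Agent.W366.DN

theorem ena : S_ENA := by
  intro r hr x hg
  set A : ℕ → Finset ℕ := fun N => (range N).filter (fun i =>
    ⌊x * (r : ℝ) ^ (i + 1)⌋ % (r : ℤ) ≠ 0) with hA
  have hcont := Real.continuous_negMulLog
  have key : ∀ w : Fin 1 → Fin r, Tendsto (fun N : ℕ => Real.negMulLog ((((range N).filter (fun i =>
    ∀ t : Fin 1, ⌊x * (r : ℝ) ^ (i + (t : ℕ) + 1)⌋ % (r : ℤ) = ((w t : ℕ) : ℤ))).card : ℝ) /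
      (N : ℝ))) atTop (𝓝 0) := by
    intro w
    have hset : ∀ N, (range N).filter (fun i =>
        ∀ t : Fin 1, ⌊x * (r : ℝ) ^ (i + (t : ℕ) + 1)⌋ % (r : ℤ) = ((w t : ℕ) : ℤ)) =
        (range N).filter (fun i => ⌊x * (r : ℝ) ^ (i + 1)⌋ % (r : ℤ) = ((w 0 : ℕ) : ℤ)) := by
      intro N
      refine Finset.filter_congr fun i _ => ?_
      constructor
      · intro h
        have := h 0
        simpa using this
      · intro h t
        have ht : t = 0 := Subsingleton.elim _ _
        subst ht
        simpa using h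
    simp only [hset]
    by_cases hw : ((w 0 : ℕ) : ℤ) = 0
    · have h1 : Tendsto (fun N : ℕ => (((range N).filter (fun i =>
          ⌊x * (r : ℝ) ^ (i + 1)⌋ % (r : ℤ) = ((w 0 : ℕ) : ℤ))).card : ℝ) / (N : ℝ)) atTop
          (𝓝 1) := by
        have h2 : Tendsto (fun N : ℕ => 1 - ((A N).card : ℝ) / (N : ℝ)) atTop (𝓝 (1 - 0)) :=
          tendsto_const_nhds.sub hg
        rw [sub_zero] at h2
        refine h2.congr' ?_
        filter_upwards [eventually_gt_atTop 0] with N hN
        have hN0 : (N : ℝ) ≠ 0 := by positivity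
        have h3 := Finset.card_filter_add_card_filter_not (s := range N)
          (p := fun i => ⌊x * (r : ℝ) ^ (i + 1)⌋ % (r : ℤ) = ((w 0 : ℕ) : ℤ))
        rw [Finset.card_range] at h3
        have h4 : (range N).filter (fun i => ¬ ⌊x * (r : ℝ) ^ (i + 1)⌋ % (r : ℤ) = ((w 0 : ℕ) : ℤ))
            = A N := by
          rw [hA, hw]
        rw [h4] at h3
        have h5 : (N : ℝ) = (((range N).filter (fun i =>
          ⌊x * (r : ℝ) ^ (i + 1)⌋ % (r : ℤ) = ((w 0 : ℕ) : ℤ))).card : ℝ) + ((A N).card : ℝ) := by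
          exact_mod_cast h3.symm
        rw [eq_div_iff hN0, sub_mul, one_mul, div_mul_cancel₀ _ hN0]
        linarith
      have h2 := (hcont.tendsto 1).comp h1
      rw [Real.negMulLog_one] at h2
      exact h2
    · have h1 : Tendsto (fun N : ℕ => (((range N).filter (fun i =>
          ⌊x * (r : ℝ) ^ (i + 1)⌋ % (r : ℤ) = ((w 0 : ℕ) : ℤ))).card : ℝ) / (N : ℝ)) atTop
          (𝓝 0) := by
        refine squeeze_zero (fun N => by positivity) (fun N => ?_) hg
        refine div_le_div_of_nonneg_right ?_ (Nat.cast_nonneg N)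
        have h3 : (range N).filter (fun i =>
            ⌊x * (r : ℝ) ^ (i + 1)⌋ % (r : ℤ) = ((w 0 : ℕ) : ℤ)) ⊆ A N := by
          intro i hi
          rw [Finset.mem_filter] at hi
          rw [hA]
          simp only
          rw [Finset.mem_filter]
          exact ⟨hi.1, by rw [hi.2]; exact hw⟩
        exact Nat.cast_le.2 (Finset.card_le_card h3)
      have h2 := (hcont.tendsto 0).comp h1
      rw [Real.negMulLog_zero] at h2
      exact h2
  have := tendsto_finset_sum (Finset.univ : Finset (Fin 1 → Fin r)) (fun w _ => key w)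
  simpa using this

theorem enb : S_ENB := by
  intro r k hr f hf
  have h1 : ∀ w : Fin k → Fin r, Tendsto (fun j => Real.negMulLog (f w j)) atTop
      (𝓝 (Real.negMulLog (1 / (r : ℝ) ^ k))) := fun w =>
    (Real.continuous_negMulLog.tendsto _).comp (hf w)
  have h2 := tendsto_finset_sum (Finset.univ : Finset (Fin k → Fin r)) (fun w _ => h1 w)
  have hr0 : (0 : ℝ) < (r : ℝ) ^ k := by positivity
  have h3 : ∑ _w : Fin k → Fin r, Real.negMulLog (1 / (r : ℝ) ^ k) = (k : ℝ) * Real.log r := by
    rw [Finset.sum_const, Finset.card_univ, Fintype.card_fun, Fintype.card_fin, Fintype.card_fin,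
      nsmul_eq_mul]
    unfold Real.negMulLog
    rw [one_div, Real.log_inv, Real.log_pow]
    push_cast
    field_simp
  rw [h3] at h2
  exact h2

end Pool.Agent.W366.DN
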